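import Pool.Agent.Helper15.T8.Stmts

set_option autoImplicit false

/-! MP_2f9829_co, T8 module RT1: removal of an edge. -/

open Finset

namespace Pool.Agent.Helper61.T8

open Pool.Agent.Helper15.T8

theorem dg_erase {n : ℕ} (E : Finset (Sym2 (Fin n))) (e : Sym2 (Fin n)) (he : e ∈ E)
    (v : Fin n) (hv : v ∈ e) : dg (E.erase e) v + 1 = dg E v := by
  unfold dg
  have h1 : (E.erase e).filter (fun e => v ∈ e) = (E.filter (fun e => v ∈ e)).erase e := by
    ext a
    simp only [mem_filter, mem_erase]
    tauto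
  rw [h1, card_erase_add_one]
  exact mem_filter.2 ⟨he, hv⟩

theorem dg_mono {n : ℕ} {E E' : Finset (Sym2 (Fin n))} (h : E ⊆ E') (v : Fin n) :
    dg E v ≤ dg E' v := card_le_card (filter_subset_filter _ h)

theorem st_RT1 (hB : ST_BAS) : ST_RT1 := by
  intro n D W j hj hle
  classical
  set S : Finset (Sym2 (Fin n)) → Finset (Fin n) := fun E1 => Wᶜ.filter (fun v => dg E1 v < D)
    with hS
  have hcount : j * (GJ n D W j).card ≤
      ∑ E1 ∈ GJ n D W (j - 1), ((S E1).offDiag.image Sym2.mk.uncurry).card := by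
    have h1 : j * (GJ n D W j).card = ((GJ n D W j).sigma (fun E => E)).card := by
      rw [card_sigma, mul_comm, ← smul_eq_mul, ← sum_const]
      refine sum_congr rfl fun E hE => ?_
      exact ((mem_filter.1 hE).2).symm
    rw [h1, ← card_sigma]
    refine card_le_card_of_injOn (fun p => ⟨p.1.erase p.2, p.2⟩) ?_ ?_
    · rintro ⟨E, e⟩ hp
      rw [mem_coe, mem_sigma] at hp
      obtain ⟨hE, he⟩ := hp
      simp only at hE he
      have hE' := mem_filter.1 hE
      obtain ⟨hGW, hcard⟩ := hE'
      have hG := (mem_filter.1 hGW).2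
      obtain ⟨hd, hdeg, hWz⟩ := hG
      rw [mem_coe, mem_sigma]
      refine ⟨?_, ?_⟩
      · refine mem_filter.2 ⟨mem_filter.2 ⟨mem_univ _, ?_, ?_, ?_⟩, ?_⟩
        · intro a ha
          exact hd a (mem_of_mem_erase ha)
        · intro v
          exact (dg_mono (erase_subset _ _) v).trans (hdeg v)
        · intro v hv
          exact Nat.le_zero.1 ((dg_mono (erase_subset _ _) v).trans (hWz v hv).le)
        · rw [card_erase_of_mem he, hcard]
      · simp only
        induction e using Sym2.ind with
        | _ a b =>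
          have hab : a ≠ b := fun h => hd _ he (by simpa using h)
          have key : ∀ v : Fin n, v ∈ s(a, b) → v ∈ S (E.erase s(a, b)) := by
            intro v hv
            have h2 := dg_erase E _ he v hv
            refine mem_filter.2 ⟨mem_compl.2 fun hW => ?_, ?_⟩
            · have := hWz v hW
              omega
            · have := hdeg v
              omega
          refine mem_image.2 ⟨(a, b), mem_offDiag.2 ⟨key a (by simp), key b (by simp), hab⟩, rfl⟩
    · rintro ⟨E, e⟩ hp ⟨E', e'⟩ hp' heq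
      rw [mem_coe, mem_sigma] at hp hp'
      simp only at hp hp'
      simp only [Sigma.mk.injEq, heq_eq_eq] at heq
      obtain ⟨h1, h2⟩ := heq
      subst h2
      have : E = E' := by
        rw [← insert_erase hp.2, ← insert_erase hp'.2, h1]
      subst this
      rfl
  have hF : FJ n D W (j - 1) = FJ n D W j + 2 := by
    unfold FJ
    omega
  have hbound : ∀ E1 ∈ GJ n D W (j - 1),
      2 * ((S E1).offDiag.image Sym2.mk.uncurry).card ≤ (FJ n D W j + 2) ^ 2 := by
    intro E1 hE1
    have h1 := (hB n D W (j - 1) E1 hE1).2.1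
    have h2 : (S E1).card ≤ FJ n D W j + 2 := by
      rw [← hF, ← h1, card_eq_sum_ones]
      calc ∑ _v ∈ S E1, 1 ≤ ∑ v ∈ S E1, (D - dg E1 v) :=
            sum_le_sum fun v hv => by
              have := (mem_filter.1 hv).2
              omega
        _ ≤ ∑ v ∈ Wᶜ, (D - dg E1 v) := sum_le_sum_of_subset (filter_subset _ _)
    have h3 : ((S E1).offDiag.image Sym2.mk.uncurry).card = (S E1).card.choose 2 := by
      have := Sym2.card_image_offDiag (S E1)
      simpa using this
    rw [h3, Nat.choose_two_right, ]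
    calc 2 * ((S E1).card * ((S E1).card - 1) / 2) ≤ (S E1).card * ((S E1).card - 1) :=
          Nat.mul_div_le _ _
      _ ≤ (FJ n D W j + 2) * (FJ n D W j + 2) :=
          Nat.mul_le_mul h2 ((Nat.sub_le _ _).trans h2)
      _ = (FJ n D W j + 2) ^ 2 := by ring
  calc 2 * j * (GJ n D W j).card = 2 * (j * (GJ n D W j).card) := by ring
    _ ≤ 2 * ∑ E1 ∈ GJ n D W (j - 1), ((S E1).offDiag.image Sym2.mk.uncurry).card :=
        Nat.mul_le_mul_left _ hcount
    _ = ∑ E1 ∈ GJ n D W (j - 1), 2 * ((S E1).offDiag.image Sym2.mk.uncurry).card := mul_sum _ _ _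
    _ ≤ ∑ _E1 ∈ GJ n D W (j - 1), (FJ n D W j + 2) ^ 2 := sum_le_sum hbound
    _ = (FJ n D W j + 2) ^ 2 * (GJ n D W (j - 1)).card := by
        rw [sum_const, smul_eq_mul, mul_comm]

end Pool.Agent.Helper61.T8
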